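import Pool.Agent.Helper61.SS.Goals

/-!
# SS-FWD: the forward direction
-/

set_option autoImplicit false

namespace Pool.Agent.Helper56.SS

open Pool.Agent.Helper61.SS TensorProduct

universe u v w x

theorem clm_ext {A : Type u} {B : Type v} {C : Type w} {Z : Type x}
    [NonUnitalNormedRing A] [NormedSpace ℂ A]
    [NonUnitalNormedRing B] [NormedSpace ℂ B]
    [NonUnitalNormedRing C] [NormedSpace ℂ C] [NormedAddCommGroup Z] [NormedSpace ℂ Z]
    {j : A →ₗ[ℂ] B →ₗ[ℂ] C} (hj : IsProj A B C j) (P Q : C →L[ℂ] Z)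
    (h : ∀ a b, P (j a b) = Q (j a b)) (c : C) : P c = Q c := by
  have hfun : (fun c => P c) = (fun c => Q c) := by
    refine hj.dense.equalizer P.continuous Q.continuous (funext fun t => ?_)
    induction t using TensorProduct.induction_on with
    | zero => simp
    | tmul a b => simpa using h a b
    | add s t hs ht =>
      simp only [Function.comp_apply, map_add] at hs ht ⊢
      rw [hs, ht]
  exact congrFun hfun c

theorem gFWD : G_FWD.{u, v, w} := by
  intro hKEY hCROSS hSR1 hSR2 hQN hEXTA hEXTB hREP hSLI A B C _ _ _ _ _ _ _ _ _ _ _ j hj hAP hB u hu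
  have hR : ∀ (g : B →L[ℂ] ℂ) (R : C →L[ℂ] A), (∀ a b, R (j a b) = g b • a) → R u = 0 := by
    intro g R hR
    by_contra hne
    obtain ⟨φ, hφ, hφ0⟩ := exists_excisable hne
    obtain ⟨L, hL⟩ := hEXTB A B C B j hj (φ.smulRight (ContinuousLinearMap.id ℂ B))
    have hL' : ∀ a b, L (j a b) = φ a • b := by
      intro a b
      rw [hL]
      simp
    have h0 : L u = 0 := hB _ (hKEY hCROSS hSR1 hSR2 hQN A B C j hj φ hφ L hL' u hu)
    apply hφ0
    have := clm_ext hj (φ.comp R) (g.comp L) (fun a b => by
      simp only [ContinuousLinearMap.comp_apply, hR, hL', map_smul, smul_eq_mul]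
      ring) u
    simp only [ContinuousLinearMap.comp_apply] at this
    rw [this, h0, map_zero]
  refine hSLI hREP A B C j hj hAP u ?_
  intro f L hL
  by_contra hne
  obtain ⟨g, hg⟩ := SeparatingDual.exists_ne_zero (R := ℂ) hne
  obtain ⟨R, hRR⟩ := hEXTA A B C A j hj (ContinuousLinearMap.smulRightL ℂ B A g)
  have hR' : ∀ a b, R (j a b) = g b • a := by
    intro a b
    rw [hRR]
    simp
  apply hg
  have := clm_ext hj (g.comp L) (f.comp R) (fun a b => by
    simp only [ContinuousLinearMap.comp_apply, hL, hR', map_smul, smul_eq_mul]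
    ring) u
  simp only [ContinuousLinearMap.comp_apply] at this
  rw [this, hR g R hR', map_zero]

end Pool.Agent.Helper56.SS
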