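import Pool.Agent.Helper57.SS.Goals

/-!
# (SEP): most pairs of the sequences are well separated
-/

set_option autoImplicit false

namespace Pool.Agent.Helper56.SS

open MeasureTheory Filter Topology Pool.Agent.Helper57.SS AddCircle

lemma fourier_neg_arg (n : ℤ) (s : Ci) : (fourier n (-s) : ℂ) = fourier (-n) s := by
  rw [fourier_apply, fourier_apply, smul_neg, neg_smul]

lemma e2_anti (m n : ℤ) (s : Ci) : e2 (m, n) (s, -s) = fourier (m - n) s := by
  unfold e2
  rw [fourier_neg_arg, sub_eq_add_neg, fourier_add]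

lemma norm_fourier (n : ℤ) (s : Ci) : ‖(fourier n s : ℂ)‖ = 1 := by
  rw [fourier_apply]
  exact Circle.norm_coe _

lemma char_avg {a b : ℕ → ℕ} (hW : Wp a b) {s : Ci} (hs : s ≠ 0) :
    Tendsto (fun N : ℕ => (N : ℂ)⁻¹ * ∑ k ∈ Finset.range N, (fourier ((a k : ℤ) - b k) s : ℂ))
      atTop (𝓝 0) := by
  have h := hW (s, -s) (fun h0 => hs (congrArg Prod.fst h0))
  simp only [e2_anti] at h
  exact h

lemma int_fourier (d n : ℤ) :
    ∫ t : Ci, (fourier (-d) t : ℂ) * fourier n t ∂haarAddCircle = if n = d then 1 else 0 := by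
  have h := congrFun (fourierCoeff_fourier (T := 1) n) d
  unfold fourierCoeff at h
  simp only [smul_eq_mul] at h
  rw [h]
  by_cases hn : n = d
  · subst hn
    simp
  · rw [if_neg hn, Pi.single_eq_of_ne (fun h => hn h.symm)]

lemma integrable_ff (d n : ℤ) :
    Integrable (fun t : Ci => (fourier (-d) t : ℂ) * fourier n t) haarAddCircle := by
  refine Integrable.of_bound (C := 1) ?_ ?_
  · exact ((fourier (-d)).continuous.mul (fourier n).continuous).aestronglyMeasurable
  · exact Filter.Eventually.of_forall fun t => by rw [norm_mul, norm_fourier, norm_fourier, one_mul]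

lemma ae_ne_zero : ∀ᵐ t : Ci ∂haarAddCircle, t ≠ 0 := by
  have h1 : (volume : Measure Ci) {0} = 0 := by
    rw [← (AddCircle.measurePreserving_mk (1 : ℝ) 0).measure_preimage
      (measurableSet_singleton _).nullMeasurableSet]
    refine Set.Countable.measure_zero ?_ _
    refine (Set.countable_range (fun n : ℤ => n • (1 : ℝ))).mono ?_
    intro x hx
    exact (AddCircle.coe_eq_zero_iff (1 : ℝ)).1 hx
  rw [volume_eq_smul_haarAddCircle, ENNReal.ofReal_one, one_smul] at h1
  rw [ae_iff]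
  simpa using h1

lemma prop_d {a b : ℕ → ℕ} (hW : Wp a b) (d : ℤ) :
    Tendsto (fun N : ℕ => (N : ℂ)⁻¹ * ∑ k ∈ Finset.range N,
      (if (a k : ℤ) - b k = d then (1 : ℂ) else 0)) atTop (𝓝 0) := by
  have key : ∀ N : ℕ, (N : ℂ)⁻¹ * ∑ k ∈ Finset.range N,
      (if (a k : ℤ) - b k = d then (1 : ℂ) else 0) =
      ∫ t : Ci, (fourier (-d) t : ℂ) * ((N : ℂ)⁻¹ * ∑ k ∈ Finset.range N,
        (fourier ((a k : ℤ) - b k) t : ℂ)) ∂haarAddCircle := by
    intro N
    have e1 : ∀ t : Ci, (fourier (-d) t : ℂ) * ((N : ℂ)⁻¹ * ∑ k ∈ Finset.range N,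
        (fourier ((a k : ℤ) - b k) t : ℂ)) = (N : ℂ)⁻¹ * ∑ k ∈ Finset.range N,
        ((fourier (-d) t : ℂ) * fourier ((a k : ℤ) - b k) t) := by
      intro t
      rw [← Finset.mul_sum]
      ring
    simp only [e1]
    rw [integral_const_mul, integral_finsetSum _ (fun k _ => integrable_ff d _)]
    simp only [int_fourier]
  simp only [key]
  rw [show (0 : ℂ) = ∫ _ : Ci, (0 : ℂ) ∂haarAddCircle by simp]
  refine tendsto_integral_of_dominated_convergence (fun _ => (1 : ℝ)) (fun N => ?_)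
    (integrable_const _) (fun N => ?_) ?_
  · have : Continuous (fun t : Ci => (fourier (-d) t : ℂ) * ((N : ℂ)⁻¹ * ∑ k ∈ Finset.range N,
        (fourier ((a k : ℤ) - b k) t : ℂ))) := by
      refine (fourier (-d)).continuous.mul (continuous_const.mul ?_)
      exact continuous_finsetSum _ fun k _ => (fourier _).continuous
    exact this.aestronglyMeasurable
  · refine Filter.Eventually.of_forall fun t => ?_
    rw [norm_mul, norm_fourier, one_mul, norm_mul, norm_inv, Complex.norm_natCast]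
    have h1 : ‖∑ k ∈ Finset.range N, (fourier ((a k : ℤ) - b k) t : ℂ)‖ ≤ N := by
      refine (norm_sum_le _ _).trans ?_
      simp only [norm_fourier]
      simp
    rcases Nat.eq_zero_or_pos N with h0 | h0
    · subst h0; simp
    · have hN : (0 : ℝ) < N := by exact_mod_cast h0
      rw [inv_mul_le_iff₀ hN, mul_one]
      exact h1
  · filter_upwards [ae_ne_zero] with t ht
    have h := (char_avg hW ht).const_mul (fourier (-d) t : ℂ)
    rwa [mul_zero] at h

/-- The number of `k < N` with `|a k - b k| ≤ D`. -/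
def cD (a b : ℕ → ℕ) (D N : ℕ) : ℕ :=
  ((Finset.range N).filter fun k => |(a k : ℤ) - b k| ≤ D).card

lemma cD_tendsto {a b : ℕ → ℕ} (hW : Wp a b) (D : ℕ) :
    Tendsto (fun N : ℕ => (N : ℝ)⁻¹ * (cD a b D N : ℝ)) atTop (𝓝 0) := by
  have h1 : Tendsto (fun N : ℕ => ∑ d ∈ Finset.Icc (-(D : ℤ)) D, (N : ℂ)⁻¹ *
      ∑ k ∈ Finset.range N, (if (a k : ℤ) - b k = d then (1 : ℂ) else 0)) atTop (𝓝 0) := by
    have := tendsto_finsetSum (Finset.Icc (-(D : ℤ)) D) fun d _ => prop_d hW d
    simpa using this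
  have h2 : ∀ N : ℕ, ∑ d ∈ Finset.Icc (-(D : ℤ)) D, (N : ℂ)⁻¹ *
      ∑ k ∈ Finset.range N, (if (a k : ℤ) - b k = d then (1 : ℂ) else 0) =
      (((N : ℝ)⁻¹ * (cD a b D N : ℝ) : ℝ) : ℂ) := by
    intro N
    rw [← Finset.mul_sum, Finset.sum_comm]
    unfold cD
    rw [Finset.card_filter]
    push_cast
    congr 1
    refine Finset.sum_congr rfl fun k _ => ?_
    rw [Finset.sum_ite_eq]
    by_cases h : |(a k : ℤ) - b k| ≤ D
    · rw [if_pos h, if_pos (Finset.mem_Icc.2 (abs_le.1 h))]
      norm_num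
    · rw [if_neg h, if_neg (fun h' => h (abs_le.2 (Finset.mem_Icc.1 h')))]
      norm_num
  simp only [h2] at h1
  have h3 := (Complex.continuous_re.tendsto 0).comp h1
  rw [Complex.zero_re] at h3
  exact h3.congr fun N => Complex.ofReal_re _

lemma inner_le {v : ℕ → ℕ} (hv : Function.Injective v) (u : ℤ) (D N : ℕ) (P : ℕ → Prop)
    [DecidablePred P] (hP : ∀ l, P l → |u - (v l : ℤ)| ≤ D) :
    ((Finset.range N).filter P).card ≤ 2 * D + 1 := by
  have h1 : (Finset.Icc (u - D) (u + D)).card = 2 * D + 1 := by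
    rw [Int.card_Icc]
    omega
  rw [← h1]
  refine Finset.card_le_card_of_injOn (fun l => (v l : ℤ)) ?_ ?_
  · intro l hl
    have := hP l (Finset.mem_filter.1 (Finset.mem_coe.1 hl)).2
    rw [abs_le] at this
    exact Finset.mem_coe.2 (Finset.mem_Icc.2 ⟨by linarith [this.2], by linarith [this.1]⟩)
  · intro l _ l' _ h
    have h' : (v l : ℤ) = v l' := h
    exact hv (by exact_mod_cast h')

lemma card_prod_filter (N : ℕ) (P : ℕ × ℕ → Prop) [DecidablePred P] :
    ((Finset.range N ×ˢ Finset.range N).filter P).card =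
      ∑ k ∈ Finset.range N, ((Finset.range N).filter fun l => P (k, l)).card := by
  rw [Finset.card_filter, Finset.sum_product]
  exact Finset.sum_congr rfl fun k _ => (Finset.card_filter _ _).symm

lemma card_le_of_inner {N M : ℕ} (P : ℕ × ℕ → Prop) [DecidablePred P]
    (h : ∀ k ∈ Finset.range N, ((Finset.range N).filter fun l => P (k, l)).card ≤ M) :
    ((Finset.range N ×ˢ Finset.range N).filter P).card ≤ N * M := by
  rw [card_prod_filter]
  refine (Finset.sum_le_card_nsmul _ _ M h).trans ?_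
  simp

lemma count {a b : ℕ → ℕ} (ha : Function.Injective a) (hb : Function.Injective b) (D N : ℕ) :
    ((Finset.range N ×ˢ Finset.range N).filter fun q : ℕ × ℕ =>
      q.1 = q.2 ∨ |(a q.1 : ℤ) - a q.2| ≤ D ∨ |(b q.1 : ℤ) - b q.2| ≤ D ∨
      |(a q.1 : ℤ) - b q.1| ≤ D ∨ |(a q.2 : ℤ) - b q.2| ≤ D ∨ |(a q.1 : ℤ) - b q.2| ≤ D ∨
      |(a q.2 : ℤ) - b q.1| ≤ D).card ≤
      N * 1 + (N * (2 * D + 1) + (N * (2 * D + 1) + (N * cD a b D N + (N * cD a b D N +
        (N * (2 * D + 1) + N * (2 * D + 1)))))) := by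
  rw [Finset.filter_or]
  refine (Finset.card_union_le _ _).trans (add_le_add ?_ ?_)
  · refine card_le_of_inner _ fun k _ => ?_
    rw [Finset.card_le_one]
    intro x hx y hy
    have h1 := (Finset.mem_filter.1 hx).2
    have h2 := (Finset.mem_filter.1 hy).2
    exact h1.symm.trans h2
  rw [Finset.filter_or]
  refine (Finset.card_union_le _ _).trans (add_le_add ?_ ?_)
  · exact card_le_of_inner _ fun k _ => inner_le ha (a k) D N _ fun l h => h
  rw [Finset.filter_or]
  refine (Finset.card_union_le _ _).trans (add_le_add ?_ ?_)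
  · exact card_le_of_inner _ fun k _ => inner_le hb (b k) D N _ fun l h => h
  rw [Finset.filter_or]
  refine (Finset.card_union_le _ _).trans (add_le_add ?_ ?_)
  · rw [card_prod_filter, Finset.sum_congr rfl (g := fun k =>
      if |(a k : ℤ) - b k| ≤ D then N else 0)]
    · rw [← Finset.sum_filter, Finset.sum_const, smul_eq_mul, mul_comm]
      exact le_rfl
    · intro k _
      split_ifs with h
      · rw [Finset.filter_true_of_mem fun _ _ => h, Finset.card_range]
      · rw [Finset.filter_false_of_mem fun _ _ => h, Finset.card_empty]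
  rw [Finset.filter_or]
  refine (Finset.card_union_le _ _).trans (add_le_add ?_ ?_)
  · exact card_le_of_inner _ fun k _ => le_rfl
  rw [Finset.filter_or]
  refine (Finset.card_union_le _ _).trans (add_le_add ?_ ?_)
  · exact card_le_of_inner _ fun k _ => inner_le hb (a k) D N _ fun l h => h
  · exact card_le_of_inner _ fun k _ => inner_le ha (b k) D N _ fun l h => by
      rw [abs_sub_comm]; exact h

theorem gSEP : Pool.Agent.Helper57.SS.G_SEP := by
  intro a b hW ha hb D
  have h0 := cD_tendsto hW D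
  have h1 : Tendsto (fun N : ℕ => (1 + 4 * (2 * (D : ℝ) + 1)) * (N : ℝ)⁻¹ +
      2 * ((N : ℝ)⁻¹ * (cD a b D N : ℝ))) atTop (𝓝 0) := by
    have h2 := (tendsto_inv_atTop_nhds_zero_nat (𝕜 := ℝ)).const_mul (1 + 4 * (2 * (D : ℝ) + 1))
    have h3 := h2.add (h0.const_mul 2)
    simpa using h3
  refine squeeze_zero (fun N => by positivity) (fun N => ?_) h1
  have hc := count ha.injective hb.injective D N
  have hc' : (((Finset.range N ×ˢ Finset.range N).filter fun q : ℕ × ℕ =>
      q.1 = q.2 ∨ |(a q.1 : ℤ) - a q.2| ≤ D ∨ |(b q.1 : ℤ) - b q.2| ≤ D ∨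
      |(a q.1 : ℤ) - b q.1| ≤ D ∨ |(a q.2 : ℤ) - b q.2| ≤ D ∨ |(a q.1 : ℤ) - b q.2| ≤ D ∨
      |(a q.2 : ℤ) - b q.1| ≤ D).card : ℝ) ≤
      (N : ℝ) * (1 + 4 * (2 * (D : ℝ) + 1) + 2 * (cD a b D N : ℝ)) := by
    refine le_trans (Nat.cast_le.2 hc) (le_of_eq ?_)
    push_cast
    ring
  rcases Nat.eq_zero_or_pos N with hN | hN
  · subst hN
    simp
  · have hN' : (0 : ℝ) < N := by exact_mod_cast hN
    have h5 := mul_le_mul_of_nonneg_left hc' (show 0 ≤ ((N : ℝ) ^ 2)⁻¹ by positivity)
    refine h5.trans (le_of_eq ?_)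
    field_simp

end Pool.Agent.Helper56.SS
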